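import Mathlib
import Pool.Agent.H39.Res3

set_option autoImplicit false

namespace Pool.Agent.Results.MP_0ab388_gt.ClosedCounter

open Set

/-- `𝒜` fills `ℬ`. -/
def Fills (𝒜 ℬ : Set (Set (ℕ → ℕ))) : Prop :=
  ∀ U ∈ ℬ, ∀ x ∈ U, ∃ W ∈ 𝒜, W ≠ U ∧ x ∈ W ∧ W ⊆ U

/-- An irresolvable self-filling family of closed subsets of the Baire space. -/
theorem result : ∃ F : Set (Set (ℕ → ℕ)), (∀ U ∈ F, IsClosed U) ∧ Fills F F ∧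
    ∀ F0 F1 : Set (Set (ℕ → ℕ)), F0 ∪ F1 = F → Disjoint F0 F1 → ¬ (Fills F0 F ∧ Fills F1 F) := by
  let d : (ℕ → ℕ) → ℕ → ℕ → ℕ := fun x i s => x (Nat.pair i s)
  have hd : Function.Surjective d := fun ζ =>
    ⟨fun n => ζ n.unpair.1 n.unpair.2, by funext i s; simp [d]⟩
  refine ⟨preimage d '' H39.Res.FL, ?_, ?_, fun F0 F1 hu hdis h => ?_⟩
  · rintro _ ⟨_, ⟨π, j, τ, -, rfl⟩, rfl⟩
    exact (H39.Res.isClosed_UL π j τ).preimage (by fun_prop)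
  · rintro _ ⟨U, hU, rfl⟩ x hx
    obtain ⟨W, h1, h2, h3, h4⟩ := H39.Res.fill_FL U hU _ hx
    exact ⟨_, ⟨W, h1, rfl⟩, fun h => h2 (hd.preimage_injective h), h3, preimage_mono h4⟩
  · refine H39.Res.irres_FL (fun W => d ⁻¹' W ∈ F0) (fun U hU ζ hζ => ?_) fun U hU ζ hζ => ?_
    · obtain ⟨x, rfl⟩ := hd ζ
      obtain ⟨V, h1, -, h3, h4⟩ := h.1 _ ⟨U, hU, rfl⟩ x hζ
      obtain ⟨W, h5, rfl⟩ := hu.le (Or.inl h1)
      exact ⟨W, h5, h1, h3, hd.preimage_subset_preimage_iff.1 h4⟩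
    · obtain ⟨x, rfl⟩ := hd ζ
      obtain ⟨V, h1, -, h3, h4⟩ := h.2 _ ⟨U, hU, rfl⟩ x hζ
      obtain ⟨W, h5, rfl⟩ := hu.le (Or.inr h1)
      exact ⟨W, h5, fun h6 => disjoint_left.1 hdis h6 h1, h3, hd.preimage_subset_preimage_iff.1 h4⟩

end Pool.Agent.Results.MP_0ab388_gt.ClosedCounter
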